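import Pool.Agent.H7.CP.Targets2

/-!
# MP_e37c09_lc: row AST of `cap2_modules`: reflection of the relation `AS`
-/

open Ordinal Cardinal Order Set
open scoped ZFSet

universe u

namespace Pool.Agent.H12.CP.AST

open _root_.HD

theorem do_tc {t : Ordinal.{u} → Ordinal.{u} → Ordinal.{u}} (ht : Prf t) (a : Ordinal.{u})
    (i j : ℕ) : DO.{u} fun w => w j = t a (w i) := by
  refine DO.sub (R := fun x w => w j = t x (w i)) a ?_
  exact DO.s3 (X := fun a b c => c = t a b) ht.dfn 0 (i + 1) (j + 1)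

theorem do_tY {t : Ordinal.{u} → Ordinal.{u} → Ordinal.{u}} (ht : Prf t)
    {Y : Ordinal.{u} → (ℕ → Ordinal.{u}) → Prop} (hY : DO fun w => Y (w 0) (fun n => w (n + 1)))
    (x : Ordinal.{u}) (m i j : ℕ) :
    DO.{u} fun w => t x (w i) < w j ∧ Y (t x (w i)) (fun n => w (n + m)) := by
  refine DO.congr (A := fun w => ∃ p, p = t x (w i) ∧ p < w j ∧ Y p (fun n => w (n + m)))
    (DO.ex ?_) fun w => ?_
  · refine (do_tc ht x (i + 1) 0).and ((DO.lt 0 (j + 1)).and ?_)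
    refine (hY.ren (fun n => if n = 0 then 0 else n + m)).congr fun w => ?_
    have h1 : (fun n => w (n + m + 1)) = fun n => w (if n + 1 = 0 then 0 else n + 1 + m) := by
      funext n
      rw [if_neg (Nat.succ_ne_zero n)]
      have h2 : n + m + 1 = n + 1 + m := by omega
      rw [h2]
    show Y (w 0) (fun n => w (n + m + 1)) ↔
      Y (w (if 0 = 0 then 0 else 0 + m)) (fun n => w (if n + 1 = 0 then 0 else n + 1 + m))
    rw [if_pos rfl, ← h1]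
  · constructor
    · rintro ⟨h1, h2⟩
      exact ⟨_, rfl, h1, h2⟩
    · rintro ⟨p, rfl, h1, h2⟩
      exact ⟨h1, h2⟩

theorem hr_as {R : Ordinal.{u} → Ordinal.{u} → Set Ordinal.{u} → Prop} (hR : HRF R)
    {t : Ordinal.{u} → Ordinal.{u} → Ordinal.{u}} (ht : Prf t) {c : Ordinal.{u} → Ordinal.{u}}
    (hc : DR fun a b => b = c a) (i : Ordinal.{u}) : HR (AS R c t i) := by
  refine ⟨?_, ?_⟩
  · intro ν X Y hXY
    unfold AS
    refine exists_congr fun j => and_congr_right fun _ => ?_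
    have h1 : ∀ a b : Ordinal.{u}, (t a b < ν ∧ t a b ∈ X) ↔ (t a b < ν ∧ t a b ∈ Y) :=
      fun a b => and_congr_right fun h => hXY _ h
    have h2 : {a | t 1 a < ν ∧ t 1 a ∈ X} = {a | t 1 a < ν ∧ t 1 a ∈ Y} := by
      ext a
      exact h1 1 a
    rw [h2, h1 0 j]
  · intro Y hY k
    unfold AS
    refine DO.exLtc (R := fun j w => (t 0 j < w k ∧ t 0 j ∈ {a | Y a w}) ∧
      R (c j) (w k) {a | t 1 a < w k ∧ t 1 a ∈ {a | Y a w}}) i ?_
    refine DO.and ?_ ?_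
    · exact do_tY ht hY 0 1 0 (k + 1)
    · refine DO.congr (A := fun w => ∃ q, q = c (w 0) ∧ R q (w (k + 1))
        {a | t 1 a < w (k + 1) ∧ Y (t 1 a) (fun n => w (n + 1))}) (DO.ex ?_) fun w => ?_
      · refine (DO.s2 (X := fun a b => b = c a) hc 1 0).and ?_
        exact hR.dfn (fun a w => t 1 a < w (k + 2) ∧ Y (t 1 a) (fun n => w (n + 2)))
          (do_tY ht hY 1 3 0 (k + 3)) 0 (k + 2)
      · constructor
        · intro h
          exact ⟨_, rfl, h⟩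
        · rintro ⟨q, rfl, h⟩
          exact h

theorem X : T_AST.{u} := by
  intro R hR t ht c hc i
  have hAS := hr_as hR ht hc i
  refine ⟨hAS, ?_⟩
  rintro ν U hi hcl ⟨hU, hr⟩ j hj
  refine ⟨hU, fun Y hY => ?_⟩
  -- the coded set
  have hY' : DS {p | p = t 0 j ∨ ∃ a, p = t 1 a ∧ a ∈ Y} := by
    show DO fun w => w 0 = t 0 j ∨ ∃ a, w 0 = t 1 a ∧ a ∈ Y
    refine (DO.eqc 0 (t 0 j)).or (DO.ex ?_)
    exact (do_tc ht 1 0 1).and (DO.s1 (X := fun a => a ∈ Y) hY 0)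
  have h01 : (0 : Ordinal.{u}) ≠ 1 := zero_ne_one
  have hclaim : ∀ ξ : Ordinal.{u}, i < ξ → 1 < ξ → (∀ a < ξ, ∀ b < ξ, t a b < ξ) →
      (AS R c t i ξ {p | p = t 0 j ∨ ∃ a, p = t 1 a ∧ a ∈ Y} ↔ R (c j) ξ Y) := by
    intro ξ hiξ h1ξ hξ
    have hext : R (c j) ξ {a | t 1 a < ξ ∧ t 1 a ∈ {p | p = t 0 j ∨ ∃ a, p = t 1 a ∧ a ∈ Y}} ↔
        R (c j) ξ Y := by
      refine hR.ext _ _ _ _ fun a ha => ?_
      constructor
      · rintro ⟨-, h | ⟨b, h, hb⟩⟩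
        · exact absurd (ht.inj _ _ _ _ h).1.symm h01
        · rw [(ht.inj _ _ _ _ h).2]
          exact hb
      · intro h
        exact ⟨hξ 1 h1ξ a ha, Or.inr ⟨a, rfl, h⟩⟩
    constructor
    · rintro ⟨j', hj', ⟨-, h | ⟨b, h, hb⟩⟩, h2⟩
      · rw [(ht.inj _ _ _ _ h).2] at h2
        exact hext.1 h2
      · exact absurd (ht.inj _ _ _ _ h).1 h01
    · intro h
      exact ⟨j, hj, ⟨hξ 0 (zero_lt_one.trans h1ξ) j (hj.trans hiξ), Or.inl rfl⟩, hext.2 h⟩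
  have h1ν : (1 : Ordinal.{u}) < ν := by
    have h1 : (0 : Ordinal.{u}) < ν := hU.lim.bot_lt
    have h2 := hU.lim.succ_lt h1
    rw [Order.succ_eq_add_one, zero_add] at h2
    exact h2
  -- the sets in the filter
  have hdt : DO fun w => t (w 0) (w 1) < w 2 := by
    refine DO.congr (A := fun w => ∃ p, p = t (w 0) (w 1) ∧ p < w 2) (DO.ex ?_) fun w => ?_
    · exact (DO.s3 (X := fun a b c => c = t a b) ht.dfn 1 2 0).and (DO.lt 0 3)
    · constructor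
      · intro h
        exact ⟨_, rfl, h⟩
      · rintro ⟨p, rfl, h⟩
        exact h
  have hu1 : ∀ a < ν, os ν {ξ | ∀ b < ξ, t a b < ξ} ∈ U := by
    intro a ha
    refine hU.nrm (fun b ξ => t a b < ξ) ?_ fun b hb => hU.gt _ (hcl a ha b hb)
    show DO fun w => t a (w 0) < w 1
    exact DO.sub (R := fun x w => t x (w 0) < w 1) a hdt
  have hu2 : os ν {ξ | ∀ a < ξ, ∀ b < ξ, t a b < ξ} ∈ U := by
    refine hU.nrm (fun a ξ => ∀ b < ξ, t a b < ξ) ?_ hu1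
    show DO fun w => ∀ b < w 1, t (w 0) b < w 1
    refine DO.allLt 1 ?_
    exact DO.s3 (X := fun a b ξ => t a b < ξ) hdt 1 0 2
  have hd1 : DS {ξ : Ordinal.{u} | i < ξ} := DO.gtc 0 i
  have hd2 : DS {ξ : Ordinal.{u} | 1 < ξ} := DO.gtc 0 1
  have hd3 : DS {ξ : Ordinal.{u} | ∀ a < ξ, ∀ b < ξ, t a b < ξ} := by
    show DO fun w => ∀ a < w 0, ∀ b < w 0, t a b < w 0
    refine DO.allLt 0 (DO.allLt 1 ?_)
    exact DO.s3 (X := fun a b ξ => t a b < ξ) hdt 1 0 2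
  have hd12 : DS ({ξ : Ordinal.{u} | i < ξ} ∩ {ξ | 1 < ξ}) := DO.and hd1 hd2
  have hG := hU.int _ _ hd12 hd3 (hU.int _ _ hd1 hd2 (hU.gt i hi) (hU.gt 1 h1ν)) hu2
  have hdG : DS (({ξ : Ordinal.{u} | i < ξ} ∩ {ξ | 1 < ξ}) ∩
      {ξ | ∀ a < ξ, ∀ b < ξ, t a b < ξ}) := DO.and hd12 hd3
  -- the two sets
  have hA : DS {ξ | AS R c t i ξ {p | p = t 0 j ∨ ∃ a, p = t 1 a ∧ a ∈ Y}} := by
    have h1 := hAS.dfn (fun a _ => a ∈ {p | p = t 0 j ∨ ∃ a, p = t 1 a ∧ a ∈ Y}) hY' 0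
    exact h1
  have hB : DS {ξ | R (c j) ξ Y} := by
    have h1 := hR.dfn (fun a _ => a ∈ Y) hY 0 1
    show DO fun w => R (c j) (w 0) Y
    exact DO.sub (R := fun x w => R x (w 0) Y) (c j) h1
  rw [← hclaim ν hi h1ν hcl, hr _ hY']
  constructor
  · intro h
    have hd : DS ({ξ | AS R c t i ξ {p | p = t 0 j ∨ ∃ a, p = t 1 a ∧ a ∈ Y}} ∩
      (({ξ : Ordinal.{u} | i < ξ} ∩ {ξ | 1 < ξ}) ∩ {ξ | ∀ a < ξ, ∀ b < ξ, t a b < ξ})) :=
      DO.and hA hdG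
    refine hU.up _ _ hd hB (hU.int _ _ hA hdG h hG) ?_
    rintro ξ - ⟨h1, ⟨h2, h3⟩, h4⟩
    exact (hclaim ξ h2 h3 h4).1 h1
  · intro h
    have hd : DS ({ξ | R (c j) ξ Y} ∩
      (({ξ : Ordinal.{u} | i < ξ} ∩ {ξ | 1 < ξ}) ∩ {ξ | ∀ a < ξ, ∀ b < ξ, t a b < ξ})) :=
      DO.and hB hdG
    refine hU.up _ _ hd hA (hU.int _ _ hB hdG h hG) ?_
    rintro ξ - ⟨h1, ⟨h2, h3⟩, h4⟩
    exact (hclaim ξ h2 h3 h4).2 h1

end Pool.Agent.H12.CP.AST
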